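import Mathlib
import Pool.Agent.Helper324.CEFin4
import Pool.Agent.Helper324.CELow

open scoped ENNReal

namespace Pool.Agent.Results.MP_06184b_an.AtMostFour

/-- The spectral radius `|T|_σ` of an operator `T` on a real normed space, computed from the
complex eigenvalues of `T` (that is, from the spectrum of the complexification of `T`). -/
noncomputable def radR {E : Type} [NormedAddCommGroup E] [NormedSpace ℝ E] (T : E →L[ℝ] E) :
    ℝ≥0∞ :=
  spectralRadius ℂ (LinearMap.baseChange ℂ (T : E →ₗ[ℝ] E))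

/-- The spectral radius `|T|_σ` of an operator `T` on a complex normed space. -/
noncomputable def radC {E : Type} [NormedAddCommGroup E] [NormedSpace ℂ E] (T : E →L[ℂ] E) :
    ℝ≥0∞ :=
  spectralRadius ℂ T

/-- `m(T)`: the least `m ≥ 1` with `|T ^ m| < 1` (`∞` if there is none). -/
noncomputable def mExp {𝕜 : Type} [RCLike 𝕜] {E : Type} [NormedAddCommGroup E] [NormedSpace 𝕜 E]
    (T : E →L[𝕜] E) : ℕ∞ :=
  ⨅ (m : ℕ) (_ : 1 ≤ m ∧ ‖T ^ m‖ < 1), (m : ℕ∞)

/-- The critical exponent `q(E)` of a real normed space: the supremum of `m(T)` over all stable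
contractions `T` of `E`. -/
noncomputable def critR (E : Type) [NormedAddCommGroup E] [NormedSpace ℝ E] : ℕ∞ :=
  ⨆ (T : E →L[ℝ] E) (_ : ‖T‖ ≤ 1) (_ : radR T < 1), mExp T

/-- The critical exponent `q(E)` of a complex normed space: the supremum of `m(T)` over all stable
contractions `T` of `E`. -/
noncomputable def critC (E : Type) [NormedAddCommGroup E] [NormedSpace ℂ E] : ℕ∞ :=
  ⨆ (T : E →L[ℂ] E) (_ : ‖T‖ ≤ 1) (_ : radC T < 1), mExp T

/-- `M(n)` for real scalars: the minimum of `q(E)` over all `n`-dimensional real normed spaces. -/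
noncomputable def minR (n : ℕ) : ℕ∞ :=
  ⨅ (E : Type) (_ : NormedAddCommGroup E) (_ : NormedSpace ℝ E)
    (_ : FiniteDimensional ℝ E) (_ : Module.finrank ℝ E = n), critR E

/-- `M(n)` for complex scalars: the minimum of `q(E)` over all `n`-dimensional complex normed
spaces. -/
noncomputable def minC (n : ℕ) : ℕ∞ :=
  ⨅ (E : Type) (_ : NormedAddCommGroup E) (_ : NormedSpace ℂ E)
    (_ : FiniteDimensional ℂ E) (_ : Module.finrank ℂ E = n), critC E

theorem mExp_le {𝕜 : Type} [RCLike 𝕜] {E : Type} [NormedAddCommGroup E] [NormedSpace 𝕜 E]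
    (T : E →L[𝕜] E) {m : ℕ} (hm : 1 ≤ m) (h : ‖T ^ m‖ < 1) : mExp T ≤ m :=
  iInf₂_le m ⟨hm, h⟩

theorem two_le_mExp {𝕜 : Type} [RCLike 𝕜] {E : Type} [NormedAddCommGroup E] [NormedSpace 𝕜 E]
    (T : E →L[𝕜] E) (h : ‖T‖ = 1) : 2 ≤ mExp T := by
  refine le_iInf₂ fun m hm => ?_
  have h2 : 2 ≤ m := by
    by_contra hcon
    have h1 : m = 1 := by omega
    rw [h1, pow_one, h] at hm
    exact lt_irrefl _ hm.2
  exact_mod_cast h2

/-- For every `n ≥ 2`: `2 ≤ M(n) ≤ 4`, for real and for complex scalars; and `M(1) ≤ 4`. -/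
theorem result : (∀ n : ℕ, 1 ≤ n → minR n ≤ 4 ∧ minC n ≤ 4) ∧
    (∀ n : ℕ, 2 ≤ n → 2 ≤ minR n ∧ 2 ≤ minC n) := by
  refine ⟨fun n _ => ⟨?_, ?_⟩, fun n hn => ⟨?_, ?_⟩⟩
  · obtain ⟨E, i1, i2, hfd, hE, hT⟩ := Pool.Agent.Helper324.CE.real_case4 n
    refine iInf_le_of_le E (iInf_le_of_le i1 (iInf_le_of_le i2
      (iInf_le_of_le hfd (iInf_le_of_le hE ?_))))
    refine iSup_le fun T => iSup_le fun h1 => iSup_le fun h2 => ?_
    refine mExp_le T (by norm_num) (lt_of_le_of_ne ?_ ?_)
    · exact Pool.Agent.Helper324.CE.norm_pow_le_one' h1 4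
    · intro h4
      have := hT T h1 h4
      unfold radR at h2
      rw [this] at h2
      exact lt_irrefl _ h2
  · obtain ⟨E, i1, i2, hfd, hE, hT⟩ := Pool.Agent.Helper324.CE.complex_case4 n
    refine iInf_le_of_le E (iInf_le_of_le i1 (iInf_le_of_le i2
      (iInf_le_of_le hfd (iInf_le_of_le hE ?_))))
    refine iSup_le fun T => iSup_le fun h1 => iSup_le fun h2 => ?_
    refine mExp_le T (by norm_num) (lt_of_le_of_ne ?_ ?_)
    · exact Pool.Agent.Helper324.CE.norm_pow_le_one' h1 4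
    · intro h4
      have := hT T h1 h4
      unfold radC at h2
      rw [this] at h2
      exact lt_irrefl _ h2
  · refine le_iInf fun E => le_iInf fun i1 => le_iInf fun i2 => le_iInf fun hfd =>
      le_iInf fun hE => ?_
    obtain ⟨T, hT1, hT2⟩ := Pool.Agent.Helper324.CE.exists_nilpotent (𝕜 := ℝ) (E := E)
      (by rw [hE]; exact hn)
    have hr : radR T < 1 := by
      unfold radR
      have h1 : LinearMap.baseChange ℂ (T : E →ₗ[ℝ] E) *
          LinearMap.baseChange ℂ (T : E →ₗ[ℝ] E) = 0 := by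
        have h2 : ((T : E →ₗ[ℝ] E) : Module.End ℝ E) * (T : E →ₗ[ℝ] E) = 0 := by
          ext y
          exact congrArg (fun S : E →L[ℝ] E => S y) hT2
        rw [← LinearMap.baseChange_mul, h2, LinearMap.baseChange_zero]
      rw [Pool.Agent.Helper324.CE.spectralRadius_of_sq_zero h1]
      exact one_pos
    exact (two_le_mExp T hT1).trans (le_iSup_of_le T (le_iSup_of_le hT1.le
      (le_iSup_of_le hr le_rfl)))
  · refine le_iInf fun E => le_iInf fun i1 => le_iInf fun i2 => le_iInf fun hfd =>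
      le_iInf fun hE => ?_
    obtain ⟨T, hT1, hT2⟩ := Pool.Agent.Helper324.CE.exists_nilpotent (𝕜 := ℂ) (E := E)
      (by rw [hE]; exact hn)
    have hr : radC T < 1 := by
      unfold radC
      rw [Pool.Agent.Helper324.CE.spectralRadius_of_sq_zero hT2]
      exact one_pos
    exact (two_le_mExp T hT1).trans (le_iSup_of_le T (le_iSup_of_le hT1.le
      (le_iSup_of_le hr le_rfl)))

end Pool.Agent.Results.MP_06184b_an.AtMostFour
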